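import Pool.Agent.Lib.MP_f6efc0_lc.Sem
import Pool.Agent.Lib.MP_f6efc0_lc.AsmA

/-!
There is an oracle relative to which BPP has a complete language and RP has none.
-/

set_option autoImplicit false

namespace Pool.Agent.Results.MP_f6efc0_lc.BPPNotRP

open OrC OrC.Sem

theorem result : ∃ A : Oracle,
    (∃ K : Set Word, Sem.InBPP A K ∧ ∀ L : Set Word, Sem.InBPP A L →
      ∀ O : Oracle, Sem.Reduces O L K) ∧
    ¬ ∃ K : Set Word, Sem.InRP A K ∧ ∀ L : Set Word, Sem.InRP A L → Sem.Reduces A L K := by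
  simp only [inBPP_iff, inRP_iff, reduces_iff]
  exact partA

end Pool.Agent.Results.MP_f6efc0_lc.BPPNotRP
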