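import Pool.Agent.Lib.MP_f6efc0_lc.SemB

/-!
There is an oracle relative to which P = RP, so that RP has complete languages, while BPP has none.
-/

set_option autoImplicit false

namespace Pool.Agent.Results.MP_f6efc0_lc.RPNotBPP

open OrC OrC.Sem

theorem result : ∃ B : Oracle,
    (∀ L : Set Word, Sem.InRP B L ↔ Sem.InP B L) ∧
    (∃ K : Set Word, Sem.InRP B K ∧ ∀ L : Set Word, Sem.InRP B L →
      ∀ O : Oracle, Sem.Reduces O L K) ∧
    ¬ ∃ K : Set Word, Sem.InBPP B K ∧ ∀ L : Set Word, Sem.InBPP B L → Sem.Reduces B L K := by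
  simp only [inBPP_iff, inRP_iff, inP_iff, reduces_iff]
  exact oracleB

end Pool.Agent.Results.MP_f6efc0_lc.RPNotBPP
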